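import Mathlib

/-! Two tetrads of positive integers such that fifteen of the sixteen cross sums of squares are
perfect squares. -/

namespace Pool.Agent.Results.MP_af362f_nt.FifteenSums

theorem result :
    ∃ a b : Fin 4 → ℕ,
      (∀ i, 0 < a i) ∧ (∀ j, 0 < b j) ∧ StrictMono a ∧ StrictMono b ∧
      ∀ i j, (i, j) ≠ (0, 1) → IsSquare (a i ^ 2 + b j ^ 2) := by
  let c : Fin 4 → Fin 4 → ℕ :=
    ![![379264689, 0, 6554963920, 17980912080],
      ![3195544911, 3920668050, 7282528240, 18258720240],
      ![4675085361, 5197745070, 8042396000, 18574869600],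
      ![8765694639, 9055248930, 10938972200, 20000169000]]
  refine ⟨![340912080, 3191220240, 4672130400, 8764119000],
    ![166194639, 2277663570, 6546092800, 17977680000], by decide, by decide, by decide, by decide,
    fun i j h => ⟨c i j, ?_⟩⟩
  revert i j
  decide

end Pool.Agent.Results.MP_af362f_nt.FifteenSums
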